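import Mathlib
import Pool.Agent.H473R4.Gen
import Pool.Agent.H473R4.Count
import Pool.Agent.H447R2.ML.Spec

set_option autoImplicit false

/-!
# Primes in the Fibonacci and Lucas sequences: almost all real initial values

For real `x₀, x₁` let `gseq x₀ x₁` be the solution of `g (n + 2) = g (n + 1) + g n`, `g 0 = x₀`,
`g 1 = x₁`.  For a prime `p` let `W x₀ x₁ p` be the `p`-rough part (the product, with multiplicity,
of the prime factors larger than `p`) of `⌈g p⌉`, and let `N x₀ x₁ n` be the number of primes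
`p ≤ n` such that `W x₀ x₁ p` is prime.
-/

namespace Pool.Agent.Results.MP_5893d7_nt.AlmostAllInitialValues

open Filter Topology MeasureTheory

/-- The sequence with `g (n + 2) = g (n + 1) + g n` and real initial values `x₀, x₁`. -/
noncomputable def gseq (x₀ x₁ : ℝ) : ℕ → ℝ
  | 0 => x₀
  | 1 => x₁
  | (n + 2) => gseq x₀ x₁ (n + 1) + gseq x₀ x₁ n

/-- The product, with multiplicity, of the prime factors of `m` that are larger than `p`. -/
def roughPart (p m : ℕ) : ℕ := (m.primeFactorsList.filter (fun r => p < r)).prod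

/-- The `p`-rough part of the term with index `p`, rounded up. -/
noncomputable def W (x₀ x₁ : ℝ) (p : ℕ) : ℕ := roughPart p ⌈gseq x₀ x₁ p⌉₊

/-- The number of primes `p ≤ n` for which `W x₀ x₁ p` is prime. -/
noncomputable def N (x₀ x₁ : ℝ) (n : ℕ) : ℕ :=
  ((Finset.range (n + 1)).filter (fun p => p.Prime ∧ (W x₀ x₁ p).Prime)).card

/-- the golden ratio and its conjugate -/
noncomputable def φ : ℝ := (1 + √5) / 2
noncomputable def ψ : ℝ := (1 - √5) / 2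

lemma sq5 : √5 ^ 2 = (5 : ℝ) := Real.sq_sqrt (by norm_num)

lemma five_pos : (0 : ℝ) < √5 := Real.sqrt_pos.2 (by norm_num)

lemma two_lt : (2 : ℝ) < √5 := by
  rw [show (2 : ℝ) = √(2 ^ 2) by rw [Real.sqrt_sq (by norm_num)]]
  exact Real.sqrt_lt_sqrt (by norm_num) (by norm_num)

lemma lt_three : √5 < (3 : ℝ) := by
  rw [show (3 : ℝ) = √(3 ^ 2) by rw [Real.sqrt_sq (by norm_num)]]
  exact Real.sqrt_lt_sqrt (by norm_num) (by norm_num)

lemma φ_sq : φ ^ 2 = φ + 1 := by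
  unfold φ
  have := sq5
  nlinarith

lemma ψ_sq : ψ ^ 2 = ψ + 1 := by
  unfold ψ
  have := sq5
  nlinarith

lemma one_lt_φ : 1 < φ := by
  unfold φ
  linarith [two_lt]

lemma ψ_abs : |ψ| ≤ 1 := by
  unfold ψ
  rw [abs_le]
  constructor <;> linarith [two_lt, lt_three]

/-- The coefficients from the initial values. -/
lemma coeffs (x₀ x₁ : ℝ) : (x₁ - ψ * x₀) / √5 + (φ * x₀ - x₁) / √5 = x₀ ∧
    (x₁ - ψ * x₀) / √5 * φ + (φ * x₀ - x₁) / √5 * ψ = x₁ := by
  have h5 := five_pos.ne'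
  constructor
  · unfold φ ψ
    field_simp
    ring
  · unfold φ ψ
    field_simp
    ring

/-- Closed form. -/
lemma closed (x₀ x₁ : ℝ) : ∀ n : ℕ,
    gseq x₀ x₁ n = (x₁ - ψ * x₀) / √5 * φ ^ n + (φ * x₀ - x₁) / √5 * ψ ^ n
  | 0 => by
      rw [gseq, pow_zero, pow_zero, mul_one, mul_one]
      exact (coeffs x₀ x₁).1.symm
  | 1 => by
      rw [gseq, pow_one, pow_one]
      exact (coeffs x₀ x₁).2.symm
  | (n + 2) => by
      rw [gseq, closed x₀ x₁ (n + 1), closed x₀ x₁ n, pow_add φ n 2, pow_add ψ n 2, φ_sq, ψ_sq]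
      ring

/-- The terms along a line of initial values. -/
lemma line {w₀ w₁ : ℝ} (u₀ u₁ : ℝ) (hw : w₁ ≠ ψ * w₀) (t : ℝ) (p : ℕ) :
    gseq (u₀ + t * w₀) (u₁ + t * w₁) p =
      ((u₁ - ψ * u₀) / √5 + t * ((w₁ - ψ * w₀) / √5)) *
        (φ ^ p + (φ * w₀ - w₁) / (w₁ - ψ * w₀) * ψ ^ p) +
      ((φ * u₀ - u₁) / √5 - (u₁ - ψ * u₀) / √5 * ((φ * w₀ - w₁) / (w₁ - ψ * w₀))) * ψ ^ p := by
  rw [closed]
  have h5 := five_pos.ne'
  have hw' : w₁ - ψ * w₀ ≠ 0 := sub_ne_zero.2 hw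
  field_simp
  ring

lemma ceil_shift (g : ℝ) : ⌈g + 1⌉₊ - 1 = ⌈g⌉₊ := by
  rcases le_or_gt 0 g with h | h
  · rw [Nat.ceil_add_one h, Nat.add_sub_cancel]
  · have h1 : ⌈g⌉₊ = 0 := Nat.ceil_eq_zero.2 h.le
    have h2 : ⌈g + 1⌉₊ ≤ 1 := Nat.ceil_le.2 (by push_cast; linarith)
    omega

lemma N_eq {w₀ w₁ : ℝ} (u₀ u₁ : ℝ) (hw : w₁ ≠ ψ * w₀) (t : ℝ) (n : ℕ) :
    N (u₀ + t * w₀) (u₁ + t * w₁) n =
      Pool.Agent.H447R2.ML.cc (fun p x => x * (φ ^ p + (φ * w₀ - w₁) / (w₁ - ψ * w₀) * ψ ^ p) +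
        (((φ * u₀ - u₁) / √5 - (u₁ - ψ * u₀) / √5 * ((φ * w₀ - w₁) / (w₁ - ψ * w₀))) * ψ ^ p + 1))
        ((u₁ - ψ * u₀) / √5 + t * ((w₁ - ψ * w₀) / √5)) n := by
  unfold N W Pool.Agent.H447R2.ML.cc
  congr 1
  refine Finset.filter_congr fun p _ => and_congr_right fun _ => ?_
  beta_reduce
  rw [← add_assoc, ← line u₀ u₁ hw t p, ceil_shift]
  rfl

/-- The abstract theorem for the family. -/
lemma main (r s : ℝ) :
    (∀ a b : ℝ, a < b → Tendsto (fun n : ℕ =>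
        (∫ u in a..b, (Pool.Agent.H447R2.ML.cc
          (fun p x => x * (φ ^ p + r * ψ ^ p) + (s * ψ ^ p + 1)) (Real.exp u) n : ℝ)) /
          ((b - a) * Real.log n)) atTop
        (𝓝 (Real.exp Real.eulerMascheroniConstant / Real.log φ))) ∧
    (∀ᵐ β : ℝ, 0 < β →
      (∀ c : ℝ, c < Real.exp Real.eulerMascheroniConstant / Real.log φ →
        ∃ᶠ n : ℕ in atTop, c * Real.log n < Pool.Agent.H447R2.ML.cc
          (fun p x => x * (φ ^ p + r * ψ ^ p) + (s * ψ ^ p + 1)) β n) ∧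
      (∀ c : ℝ, Real.exp Real.eulerMascheroniConstant / Real.log φ < c →
        ∃ᶠ n : ℕ in atTop, (Pool.Agent.H447R2.ML.cc
          (fun p x => x * (φ ^ p + r * ψ ^ p) + (s * ψ ^ p + 1)) β n : ℝ) < c * Real.log n)) :=
  Pool.Agent.H473R4.gen_shift (α := φ) (κ := 1) (C := |r| + |s| + 1) one_lt_φ zero_le_one one_lt_φ
    (d := fun p => r * ψ ^ p) (h := fun p => s * ψ ^ p + 1)
    (fun p => by
      have h1 : |ψ ^ p| ≤ 1 := by rw [abs_pow]; exact pow_le_one₀ (abs_nonneg _) ψ_abs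
      rw [abs_mul, one_pow, mul_one]
      have := mul_le_of_le_one_right (abs_nonneg r) h1
      linarith [abs_nonneg s])
    (fun p => by
      have h1 : |ψ ^ p| ≤ 1 := by rw [abs_pow]; exact pow_le_one₀ (abs_nonneg _) ψ_abs
      have h2 : |s * ψ ^ p| ≤ |s| := by
        rw [abs_mul]; exact mul_le_of_le_one_right (abs_nonneg s) h1
      have h3 := abs_add_le (s * ψ ^ p) 1
      rw [abs_one] at h3
      rw [one_pow, mul_one]
      linarith [abs_nonneg r])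

lemma ae_affine {P : ℝ → Prop} {c d : ℝ} (hc : c ≠ 0) (h : ∀ᵐ x : ℝ, P x) :
    ∀ᵐ t : ℝ, P (d + t * c) := by
  rw [ae_iff] at h ⊢
  have e : {t : ℝ | ¬ P (d + t * c)} = (fun t => c * t) ⁻¹' ((fun x => x + d) ⁻¹' {x | ¬ P x}) := by
    ext t
    simp only [Set.mem_ofPred_eq, Set.mem_preimage]
    rw [add_comm d, mul_comm t]
  rw [e, Real.volume_preimage_mul_left hc, measure_preimage_add_right, h, mul_zero]

lemma gseq_fib : ∀ n : ℕ, gseq 0 1 n = Nat.fib n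
  | 0 => by simp [gseq]
  | 1 => by simp [gseq]
  | (n + 2) => by
      rw [gseq, gseq_fib (n + 1), gseq_fib n, Nat.fib_add_two]
      push_cast; ring

lemma U_fib : ∀ n : ℕ, Pool.Agent.H447R2.ML.U 1 n = Nat.fib n
  | 0 => rfl
  | 1 => rfl
  | (n + 2) => by
      rw [Pool.Agent.H447R2.ML.U_add_two, U_fib (n + 1), U_fib n, Nat.fib_add_two]
      ring

lemma gseq_V : ∀ n : ℕ, gseq 2 1 n = Pool.Agent.H447R2.ML.V 1 n
  | 0 => by simp [gseq, Pool.Agent.H447R2.ML.V]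
  | 1 => by simp [gseq, Pool.Agent.H447R2.ML.V]
  | (n + 2) => by
      rw [gseq, gseq_V (n + 1), gseq_V n, Pool.Agent.H447R2.ML.V_add_two]
      push_cast; ring

lemma W_fib {p : ℕ} (hp : p.Prime) (h7 : 7 ≤ p) : W 0 1 p = Nat.fib p := by
  have h := Pool.Agent.H447R2.ML.rough_U 1 one_pos hp (by omega) (fun hd => by
    have := Nat.le_of_dvd (by norm_num) hd
    omega) (x := Nat.fib p) (by rw [U_fib])
  rw [Nat.floor_natCast, U_fib] at h
  unfold W
  rw [gseq_fib, Nat.ceil_natCast]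
  exact h

lemma W_lucas {p : ℕ} (hp : p.Prime) (h5 : 5 ≤ p) :
    W 2 1 p = Pool.Agent.H447R2.ML.V 1 p := by
  unfold W
  rw [gseq_V, Nat.ceil_natCast]
  refine Pool.Agent.H447R2.ML.roughPart_eq_self ?_ fun q hq h => ?_
  · exact (Pool.Agent.H447R2.ML.V_pos 1 p one_pos).ne'
  · exact Pool.Agent.H447R2.ML.lt_of_dvd_V 1 hp h5 (fun hd => hp.one_lt.ne' (Nat.dvd_one.1 hd)) hq
      (fun hd => hq.one_lt.ne' (Nat.dvd_one.1 hd)) h

theorem result :
    -- the terms with prime index of the Fibonacci and Lucas sequences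
    (∀ p : ℕ, p.Prime → 7 ≤ p → W 0 1 p = Nat.fib p) ∧
    (∀ p : ℕ, p.Prime → 5 ≤ p → (W 2 1 p : ℝ) = gseq 2 1 p) ∧
    ({n : ℕ | (Nat.fib n).Prime}.Infinite ↔ Tendsto (N 0 1) atTop atTop) ∧
    ({p : ℕ | p.Prime ∧ ∃ q : ℕ, q.Prime ∧ gseq 2 1 p = q}.Infinite ↔
      Tendsto (N 2 1) atTop atTop) ∧
    -- mean values along every line of initial values
    (∀ x w₀ w₁ : ℝ, ψ * w₀ < w₁ → ∀ s t : ℝ, s < t → Tendsto (fun n : ℕ =>
      (∫ u in s..t, (N (x + Real.exp u * w₀) (ψ * x + Real.exp u * w₁) n : ℝ)) /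
        ((t - s) * Real.log n)) atTop
      (𝓝 (Real.exp Real.eulerMascheroniConstant / Real.log φ))) ∧
    -- almost every point of every line of initial values
    (∀ u₀ u₁ w₀ w₁ : ℝ, w₁ ≠ ψ * w₀ → ∀ᵐ t : ℝ, ψ * (u₀ + t * w₀) < u₁ + t * w₁ →
      (∀ c : ℝ, c < Real.exp Real.eulerMascheroniConstant / Real.log φ →
        ∃ᶠ n : ℕ in atTop, c * Real.log n < N (u₀ + t * w₀) (u₁ + t * w₁) n) ∧
      (∀ c : ℝ, Real.exp Real.eulerMascheroniConstant / Real.log φ < c →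
        ∃ᶠ n : ℕ in atTop, (N (u₀ + t * w₀) (u₁ + t * w₁) n : ℝ) < c * Real.log n)) := by
  have h5 := five_pos
  refine ⟨fun p hp h => W_fib hp h, fun p hp h => by rw [W_lucas hp h, gseq_V], ?_, ?_, ?_, ?_⟩
  · have h1 := Pool.Agent.H473R4.tendsto_iff (W 0 1) (fun p => (Nat.fib p).Prime) 7
      fun p hp h7 => by rw [W_fib hp h7]
    refine Iff.trans ?_ h1
    constructor
    · intro h hfin
      apply h
      refine (hfin.union (Set.finite_singleton 4)).subset fun n hn => ?_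
      by_cases h4 : n = 4
      · exact Or.inr h4
      · exact Or.inl ⟨Pool.Agent.H473R4.fib_prime_index hn h4, hn⟩
    · exact fun h => h.mono fun p hp => hp.2
  · refine Pool.Agent.H473R4.tendsto_iff (W 2 1) (fun p => ∃ q : ℕ, q.Prime ∧ gseq 2 1 p = q) 5
      fun p hp h5 => ?_
    rw [W_lucas hp h5]
    simp only [gseq_V]
    constructor
    · exact fun h => ⟨_, h, rfl⟩
    · rintro ⟨q, hq, he⟩
      rw [Nat.cast_inj.1 he]
      exact hq
  · intro x w₀ w₁ hw s t hst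
    have hw' : w₁ ≠ ψ * w₀ := hw.ne'
    have hc : 0 < (w₁ - ψ * w₀) / √5 := div_pos (by linarith) h5
    have key := (main ((φ * w₀ - w₁) / (w₁ - ψ * w₀)) ((φ * x - ψ * x) / √5 -
      (ψ * x - ψ * x) / √5 * ((φ * w₀ - w₁) / (w₁ - ψ * w₀)))).1
      (s + Real.log ((w₁ - ψ * w₀) / √5)) (t + Real.log ((w₁ - ψ * w₀) / √5)) (by linarith)
    have e : t + Real.log ((w₁ - ψ * w₀) / √5) - (s + Real.log ((w₁ - ψ * w₀) / √5)) = t - s := by
      ring
    rw [e] at key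
    refine key.congr fun n => ?_
    congr 1
    rw [← intervalIntegral.integral_comp_add_right (fun v => (Pool.Agent.H447R2.ML.cc _
      (Real.exp v) n : ℝ)) (Real.log ((w₁ - ψ * w₀) / √5))]
    refine intervalIntegral.integral_congr fun u _ => ?_
    rw [N_eq x (ψ * x) hw' (Real.exp u) n]
    congr 2
    rw [Real.exp_add, Real.exp_log hc, sub_self, zero_div, zero_add]
  · intro u₀ u₁ w₀ w₁ hw
    have hc : (w₁ - ψ * w₀) / √5 ≠ 0 := div_ne_zero (sub_ne_zero.2 hw) h5.ne'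
    have key := ae_affine (d := (u₁ - ψ * u₀) / √5) hc
      (main ((φ * w₀ - w₁) / (w₁ - ψ * w₀)) ((φ * u₀ - u₁) / √5 -
      (u₁ - ψ * u₀) / √5 * ((φ * w₀ - w₁) / (w₁ - ψ * w₀)))).2
    filter_upwards [key] with t ht hpos
    have h1 : 0 < (u₁ - ψ * u₀) / √5 + t * ((w₁ - ψ * w₀) / √5) := by
      have e : (u₁ - ψ * u₀) / √5 + t * ((w₁ - ψ * w₀) / √5) =
          ((u₁ + t * w₁) - ψ * (u₀ + t * w₀)) / √5 := by ring
      rw [e]
      exact div_pos (by linarith) h5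
    have h2 := ht h1
    simp only [N_eq u₀ u₁ hw t]
    exact h2

end Pool.Agent.Results.MP_5893d7_nt.AlmostAllInitialValues
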