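import Mathlib
import Pool.Agent.H447R2.ML.Spec
import Pool.Agent.H473R4.Count

set_option autoImplicit false

/-!
# Fibonacci and Lucas primes: the asymptotic law for almost every pair (base, amplitude)

For real `α > 1`, `β > 0` and a prime `p` let `WF α β p` be the `p`-rough part (the product, with
multiplicity, of the prime factors larger than `p`) of `⌊β α ^ p⌋ + 1`, and `WL α β p` that of
`⌊β α ^ p⌋`.  With the golden ratio `φ`, the point `(φ, 1 / √5)` gives the Fibonacci numbers `F_p`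
in the first family and the point `(φ, 1)` gives the Lucas numbers `L_p` in the second one.
-/

namespace Pool.Agent.Results.MP_5893d7_nt.AlmostEveryPair

open Filter Topology MeasureTheory

/-- The product, with multiplicity, of the prime factors of `m` that are larger than `p`. -/
def roughPart (p m : ℕ) : ℕ := (m.primeFactorsList.filter (fun r => p < r)).prod

/-- The `p`-rough part of `⌊β α ^ p⌋ + 1`. -/
noncomputable def WF (α β : ℝ) (p : ℕ) : ℕ := roughPart p (⌊β * α ^ p⌋₊ + 1)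

/-- The `p`-rough part of `⌊β α ^ p⌋`. -/
noncomputable def WL (α β : ℝ) (p : ℕ) : ℕ := roughPart p ⌊β * α ^ p⌋₊

/-- The number of primes `p ≤ n` for which `WF α β p` is prime. -/
noncomputable def NF (α β : ℝ) (n : ℕ) : ℕ :=
  ((Finset.range (n + 1)).filter (fun p => p.Prime ∧ (WF α β p).Prime)).card

/-- The number of primes `p ≤ n` for which `WL α β p` is prime. -/
noncomputable def NL (α β : ℝ) (n : ℕ) : ℕ :=
  ((Finset.range (n + 1)).filter (fun p => p.Prime ∧ (WL α β p).Prime)).card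

/-- The golden ratio. -/
noncomputable def φ : ℝ := (1 + √5) / 2

lemma sq5 : √5 ^ 2 = (5 : ℝ) := Real.sq_sqrt (by norm_num)

lemma two_lt : (2 : ℝ) < √5 := by
  rw [show (2 : ℝ) = √(2 ^ 2) by rw [Real.sqrt_sq (by norm_num)]]
  exact Real.sqrt_lt_sqrt (by norm_num) (by norm_num)

lemma lt_three : √5 < (3 : ℝ) := by
  rw [show (3 : ℝ) = √(3 ^ 2) by rw [Real.sqrt_sq (by norm_num)]]
  exact Real.sqrt_lt_sqrt (by norm_num) (by norm_num)

lemma U_fib : ∀ n : ℕ, Pool.Agent.H447R2.ML.U 1 n = Nat.fib n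
  | 0 => rfl
  | 1 => rfl
  | (n + 2) => by
      rw [Pool.Agent.H447R2.ML.U_add_two, U_fib (n + 1), U_fib n, Nat.fib_add_two]
      ring

lemma V_fib {p : ℕ} (hp : 1 ≤ p) :
    Pool.Agent.H447R2.ML.V 1 p = Nat.fib (p + 1) + Nat.fib (p - 1) := by
  obtain ⟨n, rfl⟩ := Nat.exists_eq_add_of_le' hp
  rw [Pool.Agent.H447R2.ML.V_eq, U_fib, U_fib]
  rfl

/-- The conjugate root. -/
noncomputable def ψ : ℝ := (1 - √5) / 2

lemma ψ_odd {p : ℕ} (hodd : Odd p) : -1 < ψ ^ p ∧ ψ ^ p < 0 := by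
  have h1 : ψ < 0 := by unfold ψ; linarith [two_lt]
  have h2 : -1 < ψ := by unfold ψ; linarith [lt_three]
  refine ⟨?_, hodd.pow_neg h1⟩
  have h3 : |ψ ^ p| < 1 := by
    rw [abs_pow]
    exact pow_lt_one₀ (abs_nonneg _) (abs_lt.2 ⟨h2, by linarith⟩) hodd.pos.ne'
  exact (abs_lt.1 h3).1

lemma floor_fib {p : ℕ} (hodd : Odd p) : ⌊1 / √5 * φ ^ p⌋₊ + 1 = Nat.fib p := by
  have h5 : (0 : ℝ) < √5 := by linarith [two_lt]
  obtain ⟨h1, h2⟩ := ψ_odd hodd
  have hc := (Pool.Agent.H447R2.ML.closed 1 (s := √5) (α := φ) (ψ := ψ)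
    (by rw [sq5]; norm_num) (by unfold φ; push_cast; rfl) (by unfold ψ; push_cast; rfl) p).1
  rw [U_fib] at hc
  have hF : 1 ≤ Nat.fib p := Nat.fib_pos.2 hodd.pos
  have h0 : ⌊1 / √5 * φ ^ p⌋₊ = Nat.fib p - 1 := by
    have hφ : 0 < φ := by unfold φ; linarith
    rw [Nat.floor_eq_iff (by positivity), Nat.cast_sub hF, Nat.cast_one]
    have e : 1 / √5 * φ ^ p = Nat.fib p + ψ ^ p / √5 := by
      field_simp
      linarith
    rw [e]
    have h3 : ψ ^ p / √5 < 0 := div_neg_of_neg_of_pos h2 h5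
    have h4 : -1 ≤ ψ ^ p / √5 := by
      rw [le_div_iff₀ h5]
      linarith [two_lt]
    constructor <;> linarith
  omega

lemma floor_lucas {p : ℕ} (hodd : Odd p) :
    ⌊(1 : ℝ) * φ ^ p⌋₊ = Pool.Agent.H447R2.ML.V 1 p := by
  have h5 : (0 : ℝ) < √5 := by linarith [two_lt]
  obtain ⟨h1, h2⟩ := ψ_odd hodd
  have hc := (Pool.Agent.H447R2.ML.closed 1 (s := √5) (α := φ) (ψ := ψ)
    (by rw [sq5]; norm_num) (by unfold φ; push_cast; rfl) (by unfold ψ; push_cast; rfl) p).2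
  have hφ : 0 < φ := by unfold φ; linarith
  rw [Nat.floor_eq_iff (by positivity)]
  constructor <;> linarith

lemma WF_fib {p : ℕ} (hp : p.Prime) (h7 : 7 ≤ p) : WF φ (1 / √5) p = Nat.fib p := by
  have h := Pool.Agent.H447R2.ML.rough_U 1 one_pos hp (by omega) (fun hd => by
    have := Nat.le_of_dvd (by norm_num) hd
    omega) (x := Nat.fib p) (by rw [U_fib])
  rw [Nat.floor_natCast, U_fib] at h
  unfold WF
  rw [floor_fib (hp.odd_of_ne_two (by omega))]
  exact h

lemma WL_lucas {p : ℕ} (hp : p.Prime) (h5 : 5 ≤ p) :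
    WL φ 1 p = Nat.fib (p + 1) + Nat.fib (p - 1) := by
  unfold WL
  rw [floor_lucas (hp.odd_of_ne_two (by omega)), ← V_fib hp.one_lt.le]
  refine Pool.Agent.H447R2.ML.roughPart_eq_self ?_ fun q hq h => ?_
  · exact (Pool.Agent.H447R2.ML.V_pos 1 p one_pos).ne'
  · exact Pool.Agent.H447R2.ML.lt_of_dvd_V 1 hp h5 (fun hd => hp.one_lt.ne' (Nat.dvd_one.1 hd)) hq
      (fun hd => hq.one_lt.ne' (Nat.dvd_one.1 hd)) h

lemma floor_succ {v : ℝ} (hv : 0 ≤ v) : ⌊v + 1⌋₊ = ⌊v⌋₊ + 1 := by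
  exact_mod_cast Nat.floor_add_natCast hv 1

theorem result :
    -- the Fibonacci and the Lucas numbers of prime index
    (∀ p : ℕ, p.Prime → 7 ≤ p → WF φ (1 / √5) p = Nat.fib p) ∧
    (∀ p : ℕ, p.Prime → 5 ≤ p → WL φ 1 p = Nat.fib (p + 1) + Nat.fib (p - 1)) ∧
    ({n : ℕ | (Nat.fib n).Prime}.Infinite ↔ Tendsto (NF φ (1 / √5)) atTop atTop) ∧
    ({p : ℕ | p.Prime ∧ (Nat.fib (p + 1) + Nat.fib (p - 1)).Prime}.Infinite ↔
      Tendsto (NL φ 1) atTop atTop) ∧
    -- the law at almost every point, both families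
    (∀ᵐ z : ℝ × ℝ, 1 < z.1 → 0 < z.2 →
      Tendsto (fun n : ℕ => (NF z.1 z.2 n : ℝ) / Real.log n) atTop
        (𝓝 (Real.exp Real.eulerMascheroniConstant / Real.log z.1)) ∧
      Tendsto (fun n : ℕ => (NL z.1 z.2 n : ℝ) / Real.log n) atTop
        (𝓝 (Real.exp Real.eulerMascheroniConstant / Real.log z.1))) := by
  refine ⟨fun p hp h => WF_fib hp h, fun p hp h => WL_lucas hp h, ?_, ?_, ?_⟩
  · have h1 := Pool.Agent.H473R4.tendsto_iff (WF φ (1 / √5)) (fun p => (Nat.fib p).Prime) 7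
      fun p hp h7 => by rw [WF_fib hp h7]
    refine Iff.trans ?_ h1
    constructor
    · intro h hfin
      apply h
      refine (hfin.union (Set.finite_singleton 4)).subset fun n hn => ?_
      by_cases h4 : n = 4
      · exact Or.inr h4
      · exact Or.inl ⟨Pool.Agent.H473R4.fib_prime_index hn h4, hn⟩
    · exact fun h => h.mono fun p hp => hp.2
  · exact Pool.Agent.H473R4.tendsto_iff (WL φ 1)
      (fun p => (Nat.fib (p + 1) + Nat.fib (p - 1)).Prime) 5 fun p hp h5 => by rw [WL_lucas hp h5]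
  · have h := Pool.Agent.H447R2.ML.law (g := fun _ => 1) (κ := 1) (C := 1) le_rfl
      (by intro p; simp)
    have h' := Pool.Agent.H447R2.ML.law (g := fun _ => 0) (κ := 1) (C := 1) le_rfl
      (by intro p; simp)
    filter_upwards [h, h'] with z hz hz' h1 h2
    refine ⟨(hz h1 h2).congr fun n => ?_, (hz' h1 h2).congr fun n => ?_⟩
    · have e : ∀ p : ℕ, ⌊z.2 * z.1 ^ p + 1⌋₊ = ⌊z.2 * z.1 ^ p⌋₊ + 1 := fun p =>
        floor_succ (mul_nonneg h2.le (pow_nonneg (by linarith) p))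
      unfold Pool.Agent.H447R2.ML.cnt NF WF
      simp only [e]
      rfl
    · unfold Pool.Agent.H447R2.ML.cnt NL WL
      simp only [add_zero]
      rfl

end Pool.Agent.Results.MP_5893d7_nt.AlmostEveryPair
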