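import Mathlib
import Pool.Agent.H473R4.Rec
import Pool.Agent.H473R4.Count
import Pool.Agent.H447R2.ML.Spec

set_option autoImplicit false

/-!
# Primes in Lucas sequences: almost all real parameters

For real `P > 0` let `U P` be the solution of `g (n + 2) = P g (n + 1) + g n`, `g 0 = 0`, `g 1 = 1`
(the Fibonacci polynomials at `P`) and `V P` the solution with `g 0 = 2`, `g 1 = P` (the Lucas
polynomials at `P`).  At `P = 1` these are the Fibonacci and the Lucas numbers.  For a prime `p` let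
`WU P p`, `WV P p` be the `p`-rough parts (the product, with multiplicity, of the prime factors
larger than `p`) of the integer parts of `U P p`, `V P p`, and let `NU P n`, `NV P n` be the numbers
of primes `p ≤ n` for which they are prime.  The sequences have the same initial values as the
Fibonacci and Lucas numbers; only the parameter of the recurrence varies.
-/

namespace Pool.Agent.Results.MP_5893d7_nt.RealParameter

open Filter Topology MeasureTheory

/-- The Lucas sequence with real parameters `(P, -1)`. -/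
noncomputable def U (P : ℝ) : ℕ → ℝ
  | 0 => 0
  | 1 => 1
  | (n + 2) => P * U P (n + 1) + U P n

/-- The companion Lucas sequence with real parameters `(P, -1)`. -/
noncomputable def V (P : ℝ) : ℕ → ℝ
  | 0 => 2
  | 1 => P
  | (n + 2) => P * V P (n + 1) + V P n

/-- The product, with multiplicity, of the prime factors of `m` that are larger than `p`. -/
def roughPart (p m : ℕ) : ℕ := (m.primeFactorsList.filter (fun r => p < r)).prod

/-- The `p`-rough part of the integer part of `U P p`. -/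
noncomputable def WU (P : ℝ) (p : ℕ) : ℕ := roughPart p ⌊U P p⌋₊

/-- The `p`-rough part of the integer part of `V P p`. -/
noncomputable def WV (P : ℝ) (p : ℕ) : ℕ := roughPart p ⌊V P p⌋₊

/-- The number of primes `p ≤ n` for which `WU P p` is prime. -/
noncomputable def NU (P : ℝ) (n : ℕ) : ℕ :=
  ((Finset.range (n + 1)).filter (fun p => p.Prime ∧ (WU P p).Prime)).card

/-- The number of primes `p ≤ n` for which `WV P p` is prime. -/
noncomputable def NV (P : ℝ) (n : ℕ) : ℕ :=
  ((Finset.range (n + 1)).filter (fun p => p.Prime ∧ (WV P p).Prime)).card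

/-- Closed forms. -/
lemma closed {x : ℝ} (hx : x ≠ 0) : ∀ n : ℕ,
    U (x - x⁻¹) n * (x + x⁻¹) = x ^ n - (-x⁻¹) ^ n ∧ V (x - x⁻¹) n = x ^ n + (-x⁻¹) ^ n
  | 0 => by
      rw [U, V, pow_zero, pow_zero]
      constructor
      · ring
      · norm_num
  | 1 => by
      rw [U, V, pow_one, pow_one]
      constructor
      · ring
      · ring
  | (n + 2) => by
      obtain ⟨h1, h2⟩ := closed hx n
      obtain ⟨h3, h4⟩ := closed hx (n + 1)
      have hxx : x * x⁻¹ = 1 := mul_inv_cancel₀ hx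
      have e1 : x ^ 2 = (x - x⁻¹) * x + 1 := by linear_combination hxx
      have e2 : (-x⁻¹) ^ 2 = (x - x⁻¹) * (-x⁻¹) + 1 := by linear_combination hxx
      rw [U, V]
      constructor
      · have : ((x - x⁻¹) * U (x - x⁻¹) (n + 1) + U (x - x⁻¹) n) * (x + x⁻¹) =
            (x - x⁻¹) * (x ^ (n + 1) - (-x⁻¹) ^ (n + 1)) + (x ^ n - (-x⁻¹) ^ n) := by
          rw [← h3, ← h1]; ring
        rw [this, pow_add x n 2, pow_add (-x⁻¹) n 2, e1, e2]
        ring
      · rw [h4, h2, pow_add x n 2, pow_add (-x⁻¹) n 2, e1, e2]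
        ring

lemma U_nat (P : ℕ) : ∀ n : ℕ, U P n = (Pool.Agent.H447R2.ML.U P n : ℝ)
  | 0 => by simp [U, Pool.Agent.H447R2.ML.U]
  | 1 => by simp [U, Pool.Agent.H447R2.ML.U]
  | (n + 2) => by
      rw [U, U_nat P (n + 1), U_nat P n, Pool.Agent.H447R2.ML.U_add_two]
      push_cast; ring

lemma V_nat (P : ℕ) : ∀ n : ℕ, V P n = (Pool.Agent.H447R2.ML.V P n : ℝ)
  | 0 => by simp [V, Pool.Agent.H447R2.ML.V]
  | 1 => by simp [V, Pool.Agent.H447R2.ML.V]
  | (n + 2) => by
      rw [V, V_nat P (n + 1), V_nat P n, Pool.Agent.H447R2.ML.V_add_two]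
      push_cast; ring

lemma U_fib : ∀ n : ℕ, Pool.Agent.H447R2.ML.U 1 n = Nat.fib n
  | 0 => rfl
  | 1 => rfl
  | (n + 2) => by
      rw [Pool.Agent.H447R2.ML.U_add_two, U_fib (n + 1), U_fib n, Nat.fib_add_two]
      ring

/-- Special points: the natural parameters, first kind. -/
lemma WU_nat {P : ℕ} (hP : 0 < P) {p : ℕ} (hp : p.Prime) (h5 : 5 ≤ p) (hd : ¬ p ∣ P ^ 2 + 4) :
    WU P p = Pool.Agent.H447R2.ML.U P p := by
  unfold WU
  exact Pool.Agent.H447R2.ML.rough_U P hP hp h5 hd (U_nat P p)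

/-- Special points: the natural parameters, second kind. -/
lemma WV_nat {P : ℕ} (hP : 0 < P) {p : ℕ} (hp : p.Prime) (h5 : 5 ≤ p) (hd : ¬ p ∣ P)
    (hq : ∀ q : ℕ, q.Prime → q ∣ P → ¬ q ∣ Pool.Agent.H447R2.ML.V P p) :
    WV P p = Pool.Agent.H447R2.ML.V P p := by
  unfold WV
  rw [V_nat, Nat.floor_natCast]
  refine Pool.Agent.H447R2.ML.roughPart_eq_self (Pool.Agent.H447R2.ML.V_pos P p hP).ne' ?_
  intro q hq1 h
  exact Pool.Agent.H447R2.ML.lt_of_dvd_V P hp h5 hd hq1 (fun h1 => hq q hq1 h1 h) h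

lemma WU_fib {p : ℕ} (hp : p.Prime) (h7 : 7 ≤ p) : WU 1 p = Nat.fib p := by
  have h := WU_nat one_pos hp (by omega) (fun hd => by
    have := Nat.le_of_dvd (by norm_num) hd
    omega)
  rw [Nat.cast_one, U_fib] at h
  exact h

lemma WV_lucas {p : ℕ} (hp : p.Prime) (h5 : 5 ≤ p) :
    WV 1 p = Pool.Agent.H447R2.ML.V 1 p := by
  have h := WV_nat one_pos hp h5 (fun hd => hp.one_lt.ne' (Nat.dvd_one.1 hd))
    (fun q hq h1 => absurd (Nat.dvd_one.1 h1) hq.one_lt.ne')
  rw [Nat.cast_one] at h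
  exact h

/-- The value of the dominant root. -/
lemma root {x : ℝ} (hx : 1 < x) : ((x - x⁻¹) + √((x - x⁻¹) ^ 2 + 4)) / 2 = x := by
  have hx0 : x ≠ 0 := by linarith
  have hxx : x * x⁻¹ = 1 := mul_inv_cancel₀ hx0
  have h1 : (x - x⁻¹) ^ 2 + 4 = (x + x⁻¹) ^ 2 := by linear_combination (-4) * hxx
  have h2 : 0 ≤ x + x⁻¹ := by positivity
  rw [h1, Real.sqrt_sq h2]
  ring

lemma small {x : ℝ} (hx : 1 < x) {p : ℕ} (hp : 1 ≤ p) : |(-x⁻¹) ^ p| < x ^ p := by
  have h1 : 1 < x ^ p := one_lt_pow₀ hx (by omega)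
  have h2 : 0 < x⁻¹ := by positivity
  have h3 : x⁻¹ < 1 := inv_lt_one_of_one_lt₀ hx
  rw [abs_pow, abs_neg, abs_of_pos h2]
  have h4 : x⁻¹ ^ p < 1 := pow_lt_one₀ h2.le h3 (by omega)
  linarith

lemma neg_inv_pow (t : ℝ) (p : ℕ) :
    (-(Real.exp t)⁻¹) ^ p = (-1) ^ p * Real.exp (-(p * t)) := by
  rw [neg_pow, ← Real.exp_neg, ← Real.exp_nat_mul]
  congr 2
  ring

lemma abs_sign (p : ℕ) : |(-1 : ℝ) ^ p| ≤ 1 := by
  rw [abs_pow, abs_neg, abs_one, one_pow]

/-- The almost everywhere statement in terms of the dominant root, first kind. -/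
lemma mainU : ∀ᵐ x : ℝ, 1 < x →
    (∀ c : ℝ, c < Real.exp Real.eulerMascheroniConstant / Real.log x →
      ∃ᶠ n : ℕ in atTop, c * Real.log n < NU (x - x⁻¹) n) ∧
    (∀ c : ℝ, Real.exp Real.eulerMascheroniConstant / Real.log x < c →
      ∃ᶠ n : ℕ in atTop, (NU (x - x⁻¹) n : ℝ) < c * Real.log n) := by
  have h := Pool.Agent.H447R2.ML.one_param_val
    (val := fun p x => (x ^ p - (-x⁻¹) ^ p) / (x + x⁻¹))
    (y' := fun p t => p * (Real.exp (p * t) - (-(-1) ^ p) * Real.exp (-(p * t))) /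
      (Real.exp (p * t) + (-(-1) ^ p) * Real.exp (-(p * t))) +
      (-((Real.exp t - Real.exp (-t)) / (Real.exp t + Real.exp (-t)))))
    (fun p => ((measurable_id.pow_const p).sub ((measurable_inv.neg).pow_const p)).div
      (measurable_id.add measurable_inv))
    (fun p hp x hx => by
      have h1 := (abs_lt.1 (small hx hp)).2
      have h2 : 0 < x + x⁻¹ := by positivity
      exact div_pos (by linarith) h2)
    (Pool.Agent.H473R4.fam_pm (s := fun p => -(-1) ^ p) (fun p => by
        rw [abs_neg]; exact abs_sign p)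
      (H := fun t => -Real.log (Real.exp t + Real.exp (-t)))
      (H' := fun t => -((Real.exp t - Real.exp (-t)) / (Real.exp t + Real.exp (-t))))
      (fun t _ => by
        have h1 : Real.exp t + Real.exp (-t) ≠ 0 := by positivity
        have h2 : HasDerivAt (fun t : ℝ => Real.exp t + Real.exp (-t))
            (Real.exp t + Real.exp (-t) * (-1)) t :=
          (Real.hasDerivAt_exp t).add ((hasDerivAt_id t).neg.exp)
        exact ((h2.log h1).neg).congr_deriv (by ring))
      (by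
        refine ContinuousOn.neg (ContinuousOn.div ?_ ?_ fun t _ => ?_)
        · exact (Real.continuous_exp.sub (Real.continuous_exp.comp continuous_neg)).continuousOn
        · exact (Real.continuous_exp.add (Real.continuous_exp.comp continuous_neg)).continuousOn
        · positivity)
      (fun p hp t ht => by
        have hx := Real.one_lt_exp_iff.2 ht
        have h1 := (abs_lt.1 (small hx hp)).2
        have h2 : Real.exp t + (Real.exp t)⁻¹ ≠ 0 := by positivity
        rw [Real.log_div (by linarith) h2, neg_inv_pow, ← Real.exp_nat_mul, ← Real.exp_neg,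
          ← sub_eq_add_neg]
        congr 2
        ring))
  filter_upwards [h] with x hx h1
  have h2 : x + x⁻¹ ≠ 0 := by positivity
  have e : ∀ p, (x ^ p - (-x⁻¹) ^ p) / (x + x⁻¹) = U (x - x⁻¹) p := by
    intro p
    rw [div_eq_iff h2]
    exact (closed (by linarith) p).1.symm
  have e2 : ∀ n, Pool.Agent.H447R2.ML.cv (fun p x => (x ^ p - (-x⁻¹) ^ p) / (x + x⁻¹)) x n =
      NU (x - x⁻¹) n := by
    intro n
    unfold Pool.Agent.H447R2.ML.cv NU WU
    simp only [e]
    rfl
  simp only [e2] at hx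
  exact hx h1

/-- The almost everywhere statement in terms of the dominant root, second kind. -/
lemma mainV : ∀ᵐ x : ℝ, 1 < x →
    (∀ c : ℝ, c < Real.exp Real.eulerMascheroniConstant / Real.log x →
      ∃ᶠ n : ℕ in atTop, c * Real.log n < NV (x - x⁻¹) n) ∧
    (∀ c : ℝ, Real.exp Real.eulerMascheroniConstant / Real.log x < c →
      ∃ᶠ n : ℕ in atTop, (NV (x - x⁻¹) n : ℝ) < c * Real.log n) := by
  have h := Pool.Agent.H447R2.ML.one_param_val
    (val := fun p x => x ^ p + (-x⁻¹) ^ p)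
    (y' := fun p t => p * (Real.exp (p * t) - (-1) ^ p * Real.exp (-(p * t))) /
      (Real.exp (p * t) + (-1) ^ p * Real.exp (-(p * t))) + 0)
    (fun p => (measurable_id.pow_const p).add ((measurable_inv.neg).pow_const p))
    (fun p hp x hx => by
      have h1 := (abs_lt.1 (small hx hp)).1
      linarith)
    (Pool.Agent.H473R4.fam_pm (s := fun p => (-1) ^ p) (fun p => abs_sign p)
      (H := fun _ => 0) (H' := fun _ => 0)
      (fun t _ => hasDerivAt_const t 0) continuousOn_const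
      (fun p _ t _ => by
        rw [neg_inv_pow, ← Real.exp_nat_mul, add_zero]))
  filter_upwards [h] with x hx h1
  have e : ∀ p, x ^ p + (-x⁻¹) ^ p = V (x - x⁻¹) p := fun p => (closed (by linarith) p).2.symm
  have e2 : ∀ n, Pool.Agent.H447R2.ML.cv (fun p x => x ^ p + (-x⁻¹) ^ p) x n =
      NV (x - x⁻¹) n := by
    intro n
    unfold Pool.Agent.H447R2.ML.cv NV WV
    simp only [e]
    rfl
  simp only [e2] at hx
  exact hx h1

theorem result :
    -- the terms with prime index of the Fibonacci and Lucas sequences: the point `P = 1`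
    (∀ p : ℕ, p.Prime → 7 ≤ p → WU 1 p = Nat.fib p) ∧
    (∀ p : ℕ, p.Prime → 5 ≤ p → (WV 1 p : ℝ) = V 1 p) ∧
    ({n : ℕ | (Nat.fib n).Prime}.Infinite ↔ Tendsto (NU 1) atTop atTop) ∧
    ({p : ℕ | p.Prime ∧ ∃ q : ℕ, q.Prime ∧ V 1 p = q}.Infinite ↔
      Tendsto (NV 1) atTop atTop) ∧
    -- almost every real parameter, both kinds
    (∀ᵐ P : ℝ, 0 < P →
      (∀ c : ℝ, c < Real.exp Real.eulerMascheroniConstant / Real.log ((P + √(P ^ 2 + 4)) / 2) →
        (∃ᶠ n : ℕ in atTop, c * Real.log n < NU P n) ∧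
        (∃ᶠ n : ℕ in atTop, c * Real.log n < NV P n)) ∧
      (∀ c : ℝ, Real.exp Real.eulerMascheroniConstant / Real.log ((P + √(P ^ 2 + 4)) / 2) < c →
        (∃ᶠ n : ℕ in atTop, (NU P n : ℝ) < c * Real.log n) ∧
        (∃ᶠ n : ℕ in atTop, (NV P n : ℝ) < c * Real.log n))) := by
  have hV : ∀ p : ℕ, V 1 p = (Pool.Agent.H447R2.ML.V 1 p : ℝ) := by
    intro p
    have := V_nat 1 p
    rwa [Nat.cast_one] at this
  refine ⟨fun p hp h => WU_fib hp h, fun p hp h => by rw [WV_lucas hp h, hV], ?_, ?_, ?_⟩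
  · have h1 := Pool.Agent.H473R4.tendsto_iff (WU 1) (fun p => (Nat.fib p).Prime) 7
      fun p hp h7 => by rw [WU_fib hp h7]
    refine Iff.trans ?_ h1
    constructor
    · intro h hfin
      apply h
      refine (hfin.union (Set.finite_singleton 4)).subset fun n hn => ?_
      by_cases h4 : n = 4
      · exact Or.inr h4
      · exact Or.inl ⟨Pool.Agent.H473R4.fib_prime_index hn h4, hn⟩
    · exact fun h => h.mono fun p hp => hp.2
  · refine Pool.Agent.H473R4.tendsto_iff (WV 1) (fun p => ∃ q : ℕ, q.Prime ∧ V 1 p = q) 5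
      fun p hp h5 => ?_
    rw [WV_lucas hp h5]
    simp only [hV]
    constructor
    · exact fun h => ⟨_, h, rfl⟩
    · rintro ⟨q, hq, he⟩
      rw [Nat.cast_inj.1 he]
      exact hq
  · refine Pool.Agent.H473R4.ae_sub_inv ?_
    filter_upwards [mainU, mainV] with x h1 h2 hx
    rw [root hx]
    exact ⟨fun c hc => ⟨(h1 hx).1 c hc, (h2 hx).1 c hc⟩,
      fun c hc => ⟨(h1 hx).2 c hc, (h2 hx).2 c hc⟩⟩

end Pool.Agent.Results.MP_5893d7_nt.RealParameter
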